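import Pool.Agent.Helper228.Gain.G

namespace Pool.Agent.Results.MP_0852b5_an.GainLower

open Pool.Agent.Helper228.Gain

theorem result : 1 ≤ gain := one_le_gain

end Pool.Agent.Results.MP_0852b5_an.GainLower
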